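import Pool.Agent.Helper37.PathSys.Basic

/-!
# Upper bounds for numbers of path systems
-/

set_option autoImplicit false

namespace Pool.Agent.Helper37.PathSys

open SimpleGraph Finset

/-- pairs of vertices -/
abbrev Pr (n : ℕ) := {p : Fin n × Fin n // p.1 < p.2}

lemma card_Pr (n : ℕ) : Fintype.card (Pr n) = n.choose 2 := by
  have h := Sym2.card_subtype_not_diag (α := Fin n)
  have e : Fintype.card (Pr n) = Fintype.card {a : Sym2 (Fin n) // ¬ a.IsDiag} := by
    refine Fintype.card_of_bijective (f := fun p : Pr n =>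
      (⟨s(p.1.1, p.1.2), by simpa using p.2.ne⟩ : {a : Sym2 (Fin n) // ¬ a.IsDiag})) ⟨?_, ?_⟩
    · rintro ⟨⟨a, b⟩, hab⟩ ⟨⟨c, d⟩, hcd⟩ heq
      simp only [Subtype.mk.injEq, Sym2.eq_iff] at heq
      rcases heq with ⟨rfl, rfl⟩ | ⟨rfl, rfl⟩
      · rfl
      · exact absurd hab (not_lt.2 hcd.le)
    · rintro ⟨e, he⟩
      induction e using Sym2.ind with
      | _ a b =>
        have hne : a ≠ b := by simpa using he
        rcases lt_or_gt_of_ne hne with h1 | h1
        · exact ⟨⟨(a, b), h1⟩, rfl⟩
        · exact ⟨⟨(b, a), h1⟩, by simp [Sym2.eq_swap]⟩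
  rw [e, h, Fintype.card_fin]

section

variable {n : ℕ}

/-- number of functions that are prescribed on a set -/
lemma card_fixed (S : Finset (Pr n)) (c : Pr n → Fin n) :
    (univ.filter fun g : Pr n → Fin n => ∀ p ∈ S, g p = c p).card =
      n ^ (n.choose 2 - S.card) := by
  have h1 : (univ.filter fun g : Pr n → Fin n => ∀ p ∈ S, g p = c p) =
      Fintype.piFinset (fun p : Pr n => if p ∈ S then {c p} else (univ : Finset (Fin n))) := by
    ext g
    simp only [mem_filter, mem_univ, true_and, Fintype.mem_piFinset]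
    constructor
    · intro h p
      split_ifs with hp
      · simp [h p hp]
      · simp
    · intro h p hp
      have := h p
      rw [if_pos hp] at this
      simpa using this
  rw [h1, Fintype.card_piFinset]
  have h2 : ∀ p : Pr n, (if p ∈ S then ({c p} : Finset (Fin n)) else univ).card =
      if p ∈ S then 1 else n := by
    intro p
    split_ifs <;> simp
  simp only [h2]
  rw [Finset.prod_ite]
  simp only [prod_const, one_pow, one_mul]
  congr 1
  have h3 : (univ.filter fun p : Pr n => p ∉ S) = Sᶜ := by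
    ext p
    simp
  rw [h3, card_compl, card_Pr]

/-- number of functions agreeing with `c` at many points -/
lemma card_many (f : ℕ) (hn : 1 ≤ n) (c : Pr n → Fin n) :
    (univ.filter fun g : Pr n → Fin n => f ≤ (univ.filter fun p => g p = c p).card).card ≤
      2 ^ (n.choose 2) * n ^ (n.choose 2 - f) := by
  classical
  have h1 : (univ.filter fun g : Pr n → Fin n =>
      f ≤ (univ.filter fun p => g p = c p).card) ⊆
      (univ.filter fun S : Finset (Pr n) => f ≤ S.card).biUnion
        (fun S => univ.filter fun g : Pr n → Fin n => ∀ p ∈ S, g p = c p) := by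
    intro g hg
    rw [mem_filter] at hg
    refine mem_biUnion.2 ⟨univ.filter fun p => g p = c p, ?_, ?_⟩
    · simpa using hg.2
    · simp
  refine (card_le_card h1).trans (card_biUnion_le.trans ?_)
  have h2 : ∀ S ∈ (univ.filter fun S : Finset (Pr n) => f ≤ S.card),
      (univ.filter fun g : Pr n → Fin n => ∀ p ∈ S, g p = c p).card ≤
        n ^ (n.choose 2 - f) := by
    intro S hS
    rw [mem_filter] at hS
    rw [card_fixed]
    exact Nat.pow_le_pow_right hn (by omega)
  refine (Finset.sum_le_card_nsmul _ _ _ h2).trans ?_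
  rw [smul_eq_mul]
  apply Nat.mul_le_mul_right
  refine (card_le_card (filter_subset _ _)).trans ?_
  rw [card_univ, Fintype.card_finset, card_Pr]

variable {G : SimpleGraph (Fin n)}

open PathSystem

instance : Finite (PathSystem G) := by
  classical
  have : Function.Injective (fun P : PathSystem G => P.path) := by
    intro P P' h
    exact PathSystem.ext h
  exact Finite.of_injective _ this

/-- the set of pairs joined by a direct edge -/
noncomputable def direct (P : PathSystem G) : Finset (Pr n) :=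
  univ.filter fun p => P.nxt p.1.1 p.1.2 = p.1.2

/-- systems with many direct edges are rare -/
lemma many_direct (f : ℕ) (hn : 1 ≤ n) :
    {P : PathSystem G | P.Consistent ∧ f ≤ (direct P).card}.ncard ≤
      2 ^ (n.choose 2) * n ^ (n.choose 2 - f) := by
  classical
  refine le_trans ?_ (card_many f hn (fun p => p.1.2))
  rw [← Set.ncard_coe_finset]
  refine Set.ncard_le_ncard_of_injOn (fun P p => P.nxt p.1.1 p.1.2) ?_ ?_ (Set.toFinite _)
  · rintro P ⟨_, hf⟩
    simpa [direct] using hf
  · rintro P ⟨hP, _⟩ P' ⟨hP', _⟩ h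
    refine eq_of_nxt hP hP' fun u v huv => Or.inr ?_
    exact congrFun h ⟨(u, v), huv⟩

/-! ### load vectors -/

lemma weight_eq (w : Sym2 (Fin n) → ℝ) {u v : Fin n} (p : G.Path u v) :
    weight w (p : G.Walk u v) =
      ∑ e : Sym2 (Fin n), if e ∈ (p : G.Walk u v).edges then w e else 0 := by
  unfold weight
  rw [← List.sum_toFinset w p.2.isTrail.edges_nodup, ← Finset.sum_filter]
  refine Finset.sum_congr ?_ fun _ _ => rfl
  ext e
  simp

/-- the load of the edge `e` caused by the pairs in `U` -/
noncomputable def load (P : PathSystem G) (U : Finset (Pr n)) (e : Sym2 (Fin n)) : ℕ :=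
  (U.filter fun p => e ∈ (P.path p.1.1 p.1.2 : G.Walk p.1.1 p.1.2).edges).card

lemma load_lt (P : PathSystem G) (U : Finset (Pr n)) (e : Sym2 (Fin n)) :
    load P U e < n.choose 2 + 1 := by
  unfold load
  have : (U.filter fun p => e ∈ (P.path p.1.1 p.1.2 : G.Walk p.1.1 p.1.2).edges).card ≤
      Fintype.card (Pr n) := card_le_univ _
  rw [card_Pr] at this
  omega

lemma sum_weight_eq (w : Sym2 (Fin n) → ℝ) (P : PathSystem G) (U : Finset (Pr n)) :
    ∑ p ∈ U, weight w (P.path p.1.1 p.1.2 : G.Walk p.1.1 p.1.2) =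
      ∑ e : Sym2 (Fin n), (load P U e : ℝ) * w e := by
  simp only [weight_eq]
  rw [Finset.sum_comm]
  refine Finset.sum_congr rfl fun e _ => ?_
  rw [← Finset.sum_filter, Finset.sum_const, nsmul_eq_mul]
  rfl

/-- the loads determine the uniquely shortest paths -/
lemma eq_of_load {P P' : PathSystem G} {w : Sym2 (Fin n) → ℝ} {U : Finset (Pr n)}
    (hU : ∀ p ∈ U, P.UniquelyShortest w p.1.1 p.1.2)
    (hl : ∀ e, load P U e = load P' U e) {p : Pr n} (hp : p ∈ U) :
    P.path p.1.1 p.1.2 = P'.path p.1.1 p.1.2 := by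
  by_contra hne
  have h1 : ∑ p ∈ U, weight w (P.path p.1.1 p.1.2 : G.Walk p.1.1 p.1.2) =
      ∑ p ∈ U, weight w (P'.path p.1.1 p.1.2 : G.Walk p.1.1 p.1.2) := by
    rw [sum_weight_eq, sum_weight_eq]
    simp only [hl]
  have h2 : ∑ p ∈ U, weight w (P.path p.1.1 p.1.2 : G.Walk p.1.1 p.1.2) <
      ∑ p ∈ U, weight w (P'.path p.1.1 p.1.2 : G.Walk p.1.1 p.1.2) := by
    apply Finset.sum_lt_sum
    · intro q hq
      by_cases h : P'.path q.1.1 q.1.2 = P.path q.1.1 q.1.2
      · rw [h]
      · exact (hU q hq _ h).le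
    · exact ⟨p, hp, hU p hp _ (fun h => hne h.symm)⟩
  exact absurd h1 h2.ne

/-- the support of the load consists of direct edges -/
lemma support_load {P : PathSystem G} (hP : P.Consistent) (U : Finset (Pr n)) :
    (univ.filter fun e => load P U e ≠ 0).card ≤ (direct P).card := by
  classical
  have h1 : (univ.filter fun e => load P U e ≠ 0) ⊆
      (direct P).image (fun p => s(p.1.1, p.1.2)) := by
    intro e he
    rw [mem_filter] at he
    have h2 : (U.filter fun p => e ∈ (P.path p.1.1 p.1.2 : G.Walk p.1.1 p.1.2).edges).Nonempty := by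
      rw [← card_pos]
      exact Nat.pos_of_ne_zero he.2
    obtain ⟨p, hp⟩ := h2
    rw [mem_filter] at hp
    obtain ⟨a, b, rfl, hab, h3, h4⟩ := nxt_of_mem_edges hP hp.2
    rcases lt_or_gt_of_ne hab with h5 | h5
    · exact mem_image.2 ⟨⟨(a, b), h5⟩, by simp [direct, h3], rfl⟩
    · exact mem_image.2 ⟨⟨(b, a), h5⟩, by simp [direct, h4], by simp [Sym2.eq_swap]⟩
  exact (card_le_card h1).trans card_image_le

/-- number of load vectors of small support -/
lemma card_sparse (f : ℕ) (N : ℕ) :
    (univ.filter fun m : Sym2 (Fin n) → Fin (N + 1) =>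
      (univ.filter fun e => m e ≠ 0).card ≤ f).card ≤
      2 ^ (Fintype.card (Sym2 (Fin n))) * (N + 1) ^ f := by
  classical
  have h1 : (univ.filter fun m : Sym2 (Fin n) → Fin (N + 1) =>
      (univ.filter fun e => m e ≠ 0).card ≤ f) ⊆
      (univ.filter fun S : Finset (Sym2 (Fin n)) => S.card ≤ f).biUnion
        (fun S => Fintype.piFinset (fun e => if e ∈ S then (univ : Finset (Fin (N + 1))) else {0})) := by
    intro m hm
    rw [mem_filter] at hm
    refine mem_biUnion.2 ⟨univ.filter fun e => m e ≠ 0, by simpa using hm.2, ?_⟩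
    rw [Fintype.mem_piFinset]
    intro e
    split_ifs with h
    · simp
    · simpa using h
  refine (card_le_card h1).trans (card_biUnion_le.trans ?_)
  have h2 : ∀ S ∈ (univ.filter fun S : Finset (Sym2 (Fin n)) => S.card ≤ f),
      (Fintype.piFinset (fun e => if e ∈ S then (univ : Finset (Fin (N + 1))) else {0})).card ≤
        (N + 1) ^ f := by
    intro S hS
    rw [mem_filter] at hS
    rw [Fintype.card_piFinset]
    have h3 : ∀ e, (if e ∈ S then (univ : Finset (Fin (N + 1))) else {0}).card =
        if e ∈ S then N + 1 else 1 := by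
      intro e
      split_ifs <;> simp
    simp only [h3]
    rw [Finset.prod_ite]
    simp only [prod_const, one_pow, mul_one]
    have h4 : (univ.filter fun e => e ∈ S) = S := by
      ext e
      simp
    rw [h4]
    exact Nat.pow_le_pow_right (by omega) hS.2
  refine (Finset.sum_le_card_nsmul _ _ _ h2).trans ?_
  rw [smul_eq_mul]
  apply Nat.mul_le_mul_right
  refine (card_le_card (filter_subset _ _)).trans ?_
  rw [card_univ, Fintype.card_finset]

/-- systems with few direct edges and many uniquely shortest paths are rare -/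
lemma few_direct (f k : ℕ) (hn : 1 ≤ n) :
    {P : PathSystem G | P.Consistent ∧ (direct P).card ≤ f ∧
      ∃ (w : Sym2 (Fin n) → ℝ) (U : Finset (Pr n)), k ≤ U.card ∧
        ∀ p ∈ U, P.UniquelyShortest w p.1.1 p.1.2}.ncard ≤
      2 ^ (n.choose 2) * (2 ^ (Fintype.card (Sym2 (Fin n))) * (n.choose 2 + 1) ^ f *
        n ^ (n.choose 2 - k)) := by
  classical
  set A : Set (PathSystem G) := {P : PathSystem G | P.Consistent ∧ (direct P).card ≤ f ∧
      ∃ (w : Sym2 (Fin n) → ℝ) (U : Finset (Pr n)), k ≤ U.card ∧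
        ∀ p ∈ U, P.UniquelyShortest w p.1.1 p.1.2} with hA
  have hch : ∀ P : PathSystem G, ∃ (w : Sym2 (Fin n) → ℝ) (U : Finset (Pr n)), P ∈ A →
      (k ≤ U.card ∧ ∀ p ∈ U, P.UniquelyShortest w p.1.1 p.1.2) := by
    intro P
    by_cases h : P ∈ A
    · obtain ⟨w, U, h1, h2⟩ := h.2.2
      exact ⟨w, U, fun _ => ⟨h1, h2⟩⟩
    · exact ⟨0, ∅, fun h' => absurd h' h⟩
  choose w U hwU using hch
  -- the codes
  set M : Finset (Sym2 (Fin n) → Fin (n.choose 2 + 1)) :=
    univ.filter fun m => (univ.filter fun e => m e ≠ 0).card ≤ f with hM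
  set T : Finset (Finset (Pr n) × (Sym2 (Fin n) → Fin (n.choose 2 + 1)) × (Pr n → Fin n)) :=
    (univ.filter fun S : Finset (Pr n) => k ≤ S.card).biUnion
      (fun S => {S} ×ˢ M ×ˢ (univ.filter fun g : Pr n → Fin n => ∀ p ∈ S, g p = p.1.2)) with hT
  have hTcard : T.card ≤ 2 ^ (n.choose 2) * (2 ^ (Fintype.card (Sym2 (Fin n))) *
      (n.choose 2 + 1) ^ f * n ^ (n.choose 2 - k)) := by
    refine card_biUnion_le.trans ?_
    have h2 : ∀ S ∈ (univ.filter fun S : Finset (Pr n) => k ≤ S.card),
        (({S} : Finset (Finset (Pr n))) ×ˢ M ×ˢ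
          (univ.filter fun g : Pr n → Fin n => ∀ p ∈ S, g p = p.1.2)).card ≤
        2 ^ (Fintype.card (Sym2 (Fin n))) * (n.choose 2 + 1) ^ f * n ^ (n.choose 2 - k) := by
      intro S hS
      rw [mem_filter] at hS
      rw [card_product, card_product, card_singleton, one_mul, card_fixed]
      refine Nat.mul_le_mul (card_sparse f (n.choose 2)) ?_
      exact Nat.pow_le_pow_right hn (by omega)
    refine (Finset.sum_le_card_nsmul _ _ _ h2).trans ?_
    rw [smul_eq_mul]
    apply Nat.mul_le_mul_right
    refine (card_le_card (filter_subset _ _)).trans ?_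
    rw [card_univ, Fintype.card_finset, card_Pr]
  refine le_trans ?_ hTcard
  rw [← Set.ncard_coe_finset]
  refine Set.ncard_le_ncard_of_injOn
    (fun P => (U P, fun e => ⟨load P (U P) e, load_lt P (U P) e⟩,
      fun p => if p ∈ U P then p.1.2 else P.nxt p.1.1 p.1.2)) ?_ ?_ (Set.toFinite _)
  · intro P hP
    obtain ⟨h1, h2⟩ := hwU P hP
    refine mem_coe.2 (mem_biUnion.2 ⟨U P, by simpa using h1, ?_⟩)
    refine mem_product.2 ⟨by simp, mem_product.2 ⟨?_, ?_⟩⟩
    · refine mem_filter.2 ⟨mem_univ _, ?_⟩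
      refine le_trans ?_ ((support_load hP.1 (U P)).trans hP.2.1)
      apply le_of_eq
      congr 1
      ext e
      simp [Fin.ext_iff]
    · refine mem_filter.2 ⟨mem_univ _, fun p hp => ?_⟩
      simp [hp]
  · intro P hP P' hP' heq
    simp only [Prod.mk.injEq] at heq
    obtain ⟨hU, hl, hg⟩ := heq
    have hl' : ∀ e, load P (U P) e = load P' (U P) e := by
      intro e
      have := congrFun hl e
      simp only [Fin.mk.injEq] at this
      rw [this, hU]
    refine eq_of_nxt hP.1 hP'.1 fun u v huv => ?_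
    by_cases hp : (⟨(u, v), huv⟩ : Pr n) ∈ U P
    · exact Or.inl (eq_of_load (hwU P hP).2 hl' hp)
    · right
      have := congrFun hg ⟨(u, v), huv⟩
      simp only [hp, ← hU, if_false] at this
      exact this

end

end Pool.Agent.Helper37.PathSys
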