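import Mathlib

/-!
# Numerical estimates
-/

set_option autoImplicit false

namespace Pool.Agent.Helper37.PathSys

open Filter Topology

/-- size of the set of hubs -/
noncomputable def hh (δ : ℝ) (n : ℕ) : ℕ := ⌊δ * n / 200⌋₊

/-- number of common neighbours -/
noncomputable def KK (δ : ℝ) (n : ℕ) : ℕ := hh δ n / 10

lemma hh_le {δ : ℝ} (hδ : 0 < δ) (n : ℕ) : (hh δ n : ℝ) ≤ δ * n / 200 :=
  Nat.floor_le (by positivity)

lemma KK_ge {δ : ℝ} {n : ℕ} (hn : 8000 ≤ δ * n) : δ * n / 4000 ≤ (KK δ n : ℝ) := by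
  have h1 : δ * n / 200 < (hh δ n : ℝ) + 1 := Nat.lt_floor_add_one _
  have h2 : hh δ n < 10 * (KK δ n + 1) := by
    unfold KK
    omega
  have h3 : (hh δ n : ℝ) < 10 * ((KK δ n : ℝ) + 1) := by exact_mod_cast h2
  linarith

lemma choose_two_real (n : ℕ) : (n.choose 2 : ℝ) = (n : ℝ) * (n - 1) / 2 := by
  rw [Nat.cast_choose_two]

lemma sym2_card (n : ℕ) : Fintype.card (Sym2 (Fin n)) ≤ n ^ 2 := by
  have h : Fintype.card (Sym2 (Fin n)) ≤ Fintype.card (Fin n × Fin n) :=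
    Fintype.card_le_of_surjective (fun p : Fin n × Fin n => s(p.1, p.2)) (by
      intro z
      induction z using Sym2.ind with
      | _ a b => exact ⟨(a, b), rfl⟩)
  simpa [Fintype.card_prod, sq] using h

theorem numeric {δ : ℝ} (h0 : 0 < δ) (h1 : δ ≤ 1) : ∀ᶠ n : ℕ in atTop, ∀ f k : ℕ,
    (f : ℝ) ≤ δ * (n.choose 2) / 3 → δ * (n.choose 2) / 3 ≤ f + 1 → δ * (n.choose 2) ≤ k →
    ((2 ^ (n.choose 2) * n ^ (n.choose 2 - (f + 1)) +
      2 ^ (n.choose 2) * (2 ^ (Fintype.card (Sym2 (Fin n))) * (n.choose 2 + 1) ^ f *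
        n ^ (n.choose 2 - k)) : ℕ) : ℝ) ≤
      (n : ℝ) ^ (-(δ / 8) * (n : ℝ) ^ 2) *
        ((KK δ n ^ (n.choose 2 - 2 * hh δ n * n) : ℕ) : ℝ) := by
  set C : ℝ := Real.log (4000 / δ) with hC
  have hC0 : 0 ≤ C := Real.log_nonneg (by rw [le_div_iff₀ h0]; linarith)
  have hlog : ∀ᶠ n : ℕ in atTop, (3 + C) / (0.03 * δ) ≤ Real.log n :=
    (Real.tendsto_log_atTop.comp tendsto_natCast_atTop_atTop).eventually_ge_atTop _
  have hbig : ∀ᶠ n : ℕ in atTop, 8000 / δ ≤ (n : ℝ) :=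
    tendsto_natCast_atTop_atTop.eventually_ge_atTop _
  filter_upwards [hlog, hbig, eventually_ge_atTop 1000] with n hL hb hn f k hf1 hf2 hk
  set L : ℝ := Real.log n with hLdef
  set D : ℕ := n.choose 2 with hD
  set N : ℕ := Fintype.card (Sym2 (Fin n)) with hN
  have hn0 : (0 : ℝ) < n := by
    have : 0 < n := by omega
    exact_mod_cast this
  have hn1000 : (1000 : ℝ) ≤ n := by exact_mod_cast hn
  have hL0 : 0 ≤ L := by
    refine le_trans ?_ hL
    positivity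
  have hLL : 3 + C ≤ 0.03 * δ * L := by
    rw [div_le_iff₀ (by positivity)] at hL
    linarith
  have hDr : (D : ℝ) = (n : ℝ) * (n - 1) / 2 := choose_two_real n
  have hDle : (D : ℝ) ≤ (n : ℝ) ^ 2 := by rw [hDr]; nlinarith
  have hD0 : (0 : ℝ) ≤ D := Nat.cast_nonneg _
  have hNle : (N : ℝ) ≤ (n : ℝ) ^ 2 := by exact_mod_cast sym2_card n
  have hlog2 : Real.log 2 ≤ 1 := by
    have := Real.log_two_lt_d9
    linarith
  have hlog20 : 0 ≤ Real.log 2 := Real.log_nonneg (by norm_num)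
  have hexpn : ∀ m : ℕ, ((n : ℝ)) ^ m = Real.exp (m * L) := by
    intro m
    rw [hLdef, mul_comm, ← Real.rpow_natCast, Real.rpow_def_of_pos hn0]
  have hexp2 : ∀ m : ℕ, ((2 : ℝ)) ^ m = Real.exp (m * Real.log 2) := by
    intro m
    rw [mul_comm, ← Real.rpow_natCast, Real.rpow_def_of_pos two_pos]
  -- the lower bound
  have hKge : δ * n / 4000 ≤ (KK δ n : ℝ) :=
    KK_ge (by rw [div_le_iff₀ h0] at hb; linarith)
  have hlow : Real.exp (((D : ℝ) - δ * n ^ 2 / 100) * L - C * D) ≤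
      ((KK δ n ^ (D - 2 * hh δ n * n) : ℕ) : ℝ) := by
    push_cast
    set m : ℕ := D - 2 * hh δ n * n with hm
    have hm1 : (D : ℝ) - δ * n ^ 2 / 100 ≤ m := by
      have h2 : D ≤ m + 2 * hh δ n * n := by omega
      have h3 : (D : ℝ) ≤ m + 2 * hh δ n * n := by exact_mod_cast h2
      have h4 := hh_le h0 n
      have h5 : 2 * (hh δ n : ℝ) * n ≤ 2 * (δ * n / 200) * n := by
        apply mul_le_mul_of_nonneg_right _ hn0.le
        linarith
      nlinarith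
    have hm2 : (m : ℝ) ≤ D := by
      have : m ≤ D := by omega
      exact_mod_cast this
    have hpos : 0 < δ * n / 4000 := by positivity
    refine le_trans ?_ (pow_le_pow_left₀ hpos.le hKge m)
    rw [← Real.rpow_natCast (δ * n / 4000) m, Real.rpow_def_of_pos hpos]
    apply Real.exp_le_exp.2
    have hlogK : Real.log (δ * n / 4000) = L - C := by
      have : δ * n / 4000 = n / (4000 / δ) := by field_simp
      rw [this, Real.log_div hn0.ne' (by positivity)]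
    rw [hlogK]
    have e1 : ((D : ℝ) - δ * n ^ 2 / 100) * L ≤ m * L := mul_le_mul_of_nonneg_right hm1 hL0
    have e2 : C * m ≤ C * D := mul_le_mul_of_nonneg_left hm2 hC0
    nlinarith
  -- the upper bound
  have ht1 : ((2 : ℝ) ^ D * (n : ℝ) ^ (D - (f + 1))) ≤
      Real.exp (2 * n ^ 2 + ((D : ℝ) - δ * D / 3) * L) := by
    rw [hexpn, hexp2, ← Real.exp_add]
    apply Real.exp_le_exp.2
    have h2 : (((D - (f + 1) : ℕ)) : ℝ) ≤ (D : ℝ) - δ * D / 3 := by
      by_cases hle : f + 1 ≤ D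
      · rw [Nat.cast_sub hle]
        push_cast
        linarith
      · rw [Nat.sub_eq_zero_of_le (by omega)]
        push_cast
        nlinarith
    have h3 := mul_le_mul_of_nonneg_right h2 hL0
    have h4 : (D : ℝ) * Real.log 2 ≤ D * 1 := mul_le_mul_of_nonneg_left hlog2 hD0
    nlinarith
  have ht2 : ((2 : ℝ) ^ D * (2 ^ N * ((D : ℝ) + 1) ^ f * (n : ℝ) ^ (D - k))) ≤
      Real.exp (2 * n ^ 2 + ((D : ℝ) - δ * D / 3) * L) := by
    have h2 : (((D - k : ℕ)) : ℝ) ≤ (D : ℝ) - δ * D := by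
      by_cases hle : k ≤ D
      · rw [Nat.cast_sub hle]
        linarith
      · rw [Nat.sub_eq_zero_of_le (by omega)]
        push_cast
        nlinarith
    have h3 : ((D : ℝ) + 1) ^ f ≤ Real.exp (f * (2 * L)) := by
      have h4 : (D : ℝ) + 1 ≤ (n : ℝ) ^ 2 := by rw [hDr]; nlinarith
      refine (pow_le_pow_left₀ (by positivity) h4 f).trans ?_
      rw [← pow_mul, hexpn]
      apply Real.exp_le_exp.2
      push_cast
      linarith
    have h5 : ((2 : ℝ) ^ D * (2 ^ N * ((D : ℝ) + 1) ^ f * (n : ℝ) ^ (D - k))) ≤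
        Real.exp (D * Real.log 2) * (Real.exp (N * Real.log 2) * Real.exp (f * (2 * L)) *
          Real.exp ((D - k : ℕ) * L)) := by
      rw [hexpn, hexp2, hexp2]
      gcongr
    refine h5.trans ?_
    rw [← Real.exp_add, ← Real.exp_add, ← Real.exp_add]
    apply Real.exp_le_exp.2
    have h6 := mul_le_mul_of_nonneg_right h2 hL0
    have h7 : (D : ℝ) * Real.log 2 ≤ D * 1 := mul_le_mul_of_nonneg_left hlog2 hD0
    have h8 : (N : ℝ) * Real.log 2 ≤ N * 1 :=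
      mul_le_mul_of_nonneg_left hlog2 (Nat.cast_nonneg _)
    have h9 : (f : ℝ) * (2 * L) ≤ δ * D / 3 * (2 * L) :=
      mul_le_mul_of_nonneg_right hf1 (by positivity)
    nlinarith
  have hsum : ((2 ^ D * n ^ (D - (f + 1)) +
      2 ^ D * (2 ^ N * (D + 1) ^ f * n ^ (D - k)) : ℕ) : ℝ) ≤
      Real.exp (1 + (2 * n ^ 2 + ((D : ℝ) - δ * D / 3) * L)) := by
    push_cast
    have h2 : (2 : ℝ) ≤ Real.exp 1 := by
      have := Real.add_one_le_exp (1 : ℝ)
      linarith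
    rw [Real.exp_add]
    have h3 : 2 * Real.exp (2 * n ^ 2 + ((D : ℝ) - δ * D / 3) * L) ≤
        Real.exp 1 * Real.exp (2 * n ^ 2 + ((D : ℝ) - δ * D / 3) * L) :=
      mul_le_mul_of_nonneg_right h2 (Real.exp_pos _).le
    linarith
  refine hsum.trans ?_
  have hrp : (n : ℝ) ^ (-(δ / 8) * (n : ℝ) ^ 2) = Real.exp (L * (-(δ / 8) * (n : ℝ) ^ 2)) :=
    Real.rpow_def_of_pos hn0 _
  rw [hrp]
  refine le_trans ?_ (mul_le_mul_of_nonneg_left hlow (Real.exp_pos _).le)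
  rw [← Real.exp_add]
  apply Real.exp_le_exp.2
  -- the final inequality
  have hfin : 1 + 2 * (n : ℝ) ^ 2 + C * D ≤
      (δ * D / 3 - δ / 8 * n ^ 2 - δ * n ^ 2 / 100) * L := by
    have e1 : 1 + 2 * (n : ℝ) ^ 2 + C * D ≤ (3 + C) * n ^ 2 := by
      have := mul_le_mul_of_nonneg_left hDle hC0
      nlinarith
    have e2 : (3 + C) * (n : ℝ) ^ 2 ≤ 0.03 * δ * L * n ^ 2 :=
      mul_le_mul_of_nonneg_right hLL (by positivity)
    have e3 : 0.03 * δ * (n : ℝ) ^ 2 ≤ δ * D / 3 - δ / 8 * n ^ 2 - δ * n ^ 2 / 100 := by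
      rw [hDr]
      have : 0 ≤ δ * ((n : ℝ) * (n - 1000)) := by
        apply mul_nonneg h0.le
        apply mul_nonneg hn0.le
        linarith
      nlinarith [mul_pos h0 (mul_pos hn0 hn0)]
    have e4 := mul_le_mul_of_nonneg_right e3 hL0
    nlinarith
  nlinarith

/-- the probability of a bad graph tends to `0` -/
theorem bad_tendsto {δ : ℝ} (h0 : 0 < δ) :
    Tendsto (fun n : ℕ => (n : ℝ) ^ 2 * (2 ^ (KK δ n) * (7 / 8) ^ (hh δ n - 2))) atTop (𝓝 0) := by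
  set r : ℝ := 2 * (7 / 8) ^ 10 with hr
  have hr0 : 0 < r := by positivity
  have hr1 : r < 1 := by rw [hr]; norm_num
  set s : ℝ := r ^ (δ / 4000) with hs
  have hs0 : 0 < s := Real.rpow_pos_of_pos hr0 _
  have hs1 : s < 1 := Real.rpow_lt_one hr0.le hr1 (by positivity)
  have hlim : Tendsto (fun n : ℕ => 64 / 49 * ((n : ℝ) ^ 2 * s ^ n)) atTop (𝓝 0) := by
    have := (tendsto_pow_const_mul_const_pow_of_abs_lt_one 2 (r := s)
      (by rw [abs_of_pos hs0]; exact hs1)).const_mul (64 / 49)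
    simpa using this
  refine squeeze_zero' (Eventually.of_forall fun n => by positivity) ?_ hlim
  have hbig : ∀ᶠ n : ℕ in atTop, 8000 / δ ≤ (n : ℝ) :=
    tendsto_natCast_atTop_atTop.eventually_ge_atTop _
  filter_upwards [hbig] with n hb
  have hKge : δ * n / 4000 ≤ (KK δ n : ℝ) :=
    KK_ge (by rw [div_le_iff₀ h0] at hb; linarith)
  have h1 : 10 * KK δ n ≤ hh δ n := by unfold KK; omega
  have h2 : ((7 : ℝ) / 8) ^ (hh δ n - 2) ≤ (7 / 8) ^ (10 * KK δ n - 2) :=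
    pow_le_pow_of_le_one (by norm_num) (by norm_num) (by omega)
  have h3 : ((7 : ℝ) / 8) ^ (10 * KK δ n - 2) ≤ 64 / 49 * (7 / 8) ^ (10 * KK δ n) := by
    by_cases hK : 2 ≤ 10 * KK δ n
    · have : ((7 : ℝ) / 8) ^ (10 * KK δ n) = (7 / 8) ^ (10 * KK δ n - 2) * (7 / 8) ^ 2 := by
        rw [← pow_add]; congr 1; omega
      rw [this]
      have hp : (0 : ℝ) < (7 / 8) ^ (10 * KK δ n - 2) := by positivity
      nlinarith
    · have : KK δ n = 0 := by omega
      rw [this]; norm_num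
  have h4 : (2 : ℝ) ^ (KK δ n) * (7 / 8) ^ (hh δ n - 2) ≤ 64 / 49 * r ^ (KK δ n) := by
    calc (2 : ℝ) ^ (KK δ n) * (7 / 8) ^ (hh δ n - 2)
        ≤ 2 ^ (KK δ n) * (64 / 49 * (7 / 8) ^ (10 * KK δ n)) :=
          mul_le_mul_of_nonneg_left (h2.trans h3) (by positivity)
      _ = 64 / 49 * r ^ (KK δ n) := by rw [hr, mul_pow, ← pow_mul]; ring
  have h5 : r ^ (KK δ n) ≤ s ^ n := by
    rw [hs, ← Real.rpow_natCast, ← Real.rpow_natCast, ← Real.rpow_mul hr0.le]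
    apply Real.rpow_le_rpow_of_exponent_ge hr0 hr1.le
    linarith
  calc (n : ℝ) ^ 2 * (2 ^ (KK δ n) * (7 / 8) ^ (hh δ n - 2))
      ≤ (n : ℝ) ^ 2 * (64 / 49 * r ^ (KK δ n)) := mul_le_mul_of_nonneg_left h4 (by positivity)
    _ ≤ (n : ℝ) ^ 2 * (64 / 49 * s ^ n) := by gcongr
    _ = 64 / 49 * ((n : ℝ) ^ 2 * s ^ n) := by ring

end Pool.Agent.Helper37.PathSys
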