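import Pool.Agent.Helper37.PathSys.Lower

/-!
# Common neighbours in a uniformly random graph
-/

set_option autoImplicit false

namespace Pool.Agent.Helper37.PathSys

open SimpleGraph Finset

section

open Classical

variable {n : ℕ}

lemma sum_toggle (E : SimpleGraph (Fin n)) (φ : SimpleGraph (Fin n) → ℝ) :
    ∑ G, φ (symmDiff G E) = ∑ G, φ G := by
  have hinv : Function.Involutive (fun G : SimpleGraph (Fin n) => symmDiff G E) := by
    intro G
    exact symmDiff_symmDiff_cancel_right E G
  exact Equiv.sum_comp hinv.toPerm φ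

lemma toggle_adj (G E : SimpleGraph (Fin n)) (a b : Fin n) :
    (symmDiff G E).Adj a b ↔ ¬ (G.Adj a b ↔ E.Adj a b) := by
  rw [symmDiff_def, SimpleGraph.sup_adj, SimpleGraph.sdiff_adj, SimpleGraph.sdiff_adj]
  tauto

/-- the factor of the vertex `h` -/
noncomputable def fac (u v h : Fin n) (G : SimpleGraph (Fin n)) : ℝ :=
  if G.Adj u h ∧ G.Adj v h then 1 / 2 else 1

lemma edge_adj' {a b x y : Fin n} (hab : a ≠ b) :
    (SimpleGraph.edge a b).Adj x y ↔ (x = a ∧ y = b) ∨ (x = b ∧ y = a) := by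
  rw [SimpleGraph.edge_adj]
  constructor
  · rintro ⟨h | h, _⟩
    · exact Or.inl ⟨h.1, h.2⟩
    · exact Or.inr ⟨h.1, h.2⟩
  · rintro (⟨rfl, rfl⟩ | ⟨rfl, rfl⟩)
    · exact ⟨Or.inl ⟨rfl, rfl⟩, hab⟩
    · exact ⟨Or.inr ⟨rfl, rfl⟩, hab.symm⟩

lemma sum_fac {u v h : Fin n} (huv : u ≠ v) (hu : h ≠ u) (hv : h ≠ v)
    (g : SimpleGraph (Fin n) → ℝ)
    (hg1 : ∀ G, g (symmDiff G (SimpleGraph.edge u h)) = g G)
    (hg2 : ∀ G, g (symmDiff G (SimpleGraph.edge v h)) = g G) :
    ∑ G, fac u v h G * g G = 7 / 8 * ∑ G, g G := by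
  set E1 := SimpleGraph.edge u h with hE1
  set E2 := SimpleGraph.edge v h with hE2
  set φ : SimpleGraph (Fin n) → ℝ := fun G => fac u v h G * g G with hφ
  have h1 : ∑ G, φ (symmDiff G E1) = ∑ G, φ G := sum_toggle E1 φ
  have h2 : ∑ G, φ (symmDiff G E2) = ∑ G, φ G := sum_toggle E2 φ
  have h3 : ∑ G, φ (symmDiff (symmDiff G E1) E2) = ∑ G, φ G := by
    rw [sum_toggle E1 (fun G => φ (symmDiff G E2)), h2]
  have h4 : ∀ G, φ G + φ (symmDiff G E1) + φ (symmDiff G E2) +
      φ (symmDiff (symmDiff G E1) E2) = 7 / 2 * g G := by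
    intro G
    simp only [hφ, hg1, hg2]
    have a1 : E1.Adj u h := (edge_adj' hu.symm).2 (Or.inl ⟨rfl, rfl⟩)
    have a2 : ¬ E1.Adj v h := by
      rw [edge_adj' hu.symm]
      rintro (⟨h', _⟩ | ⟨h', _⟩)
      · exact huv h'.symm
      · exact hv h'.symm
    have a3 : E2.Adj v h := (edge_adj' hv.symm).2 (Or.inl ⟨rfl, rfl⟩)
    have a4 : ¬ E2.Adj u h := by
      rw [edge_adj' hv.symm]
      rintro (⟨h', _⟩ | ⟨h', _⟩)
      · exact huv h'
      · exact hu h'.symm
    unfold fac
    simp only [toggle_adj, a1, a2, a3, a4, iff_true, iff_false, not_not]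
    by_cases b1 : G.Adj u h <;> by_cases b2 : G.Adj v h <;> simp [b1, b2] <;> ring
  have h5 : 4 * ∑ G, φ G = 7 / 2 * ∑ G, g G := by
    rw [Finset.mul_sum (s := univ) (f := g), ← Finset.sum_congr rfl (fun G _ => h4 G)]
    rw [Finset.sum_add_distrib, Finset.sum_add_distrib, Finset.sum_add_distrib, h1, h2, h3]
    ring
  linarith

lemma sum_prod_fac {u v : Fin n} (huv : u ≠ v) (S : Finset (Fin n)) (hu : u ∉ S) (hv : v ∉ S) :
    ∑ G : SimpleGraph (Fin n), ∏ h ∈ S, fac u v h G =
      (7 / 8) ^ S.card * (Fintype.card (SimpleGraph (Fin n)) : ℝ) := by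
  induction S using Finset.induction_on with
  | empty => simp
  | insert h S hhS ih =>
    rw [mem_insert, not_or] at hu hv
    simp only [Finset.prod_insert hhS]
    have inv : ∀ (a : Fin n), (a = u ∨ a = v) → ∀ G : SimpleGraph (Fin n),
        ∏ x ∈ S, fac u v x (symmDiff G (SimpleGraph.edge a h)) = ∏ x ∈ S, fac u v x G := by
      intro a ha G
      refine Finset.prod_congr rfl fun x hx => ?_
      have hxh : x ≠ h := fun h' => hhS (h' ▸ hx)
      have hah : a ≠ h := by
        rcases ha with rfl | rfl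
        · exact hu.1
        · exact hv.1
      have b1 : ¬ (SimpleGraph.edge a h).Adj u x := by
        rw [edge_adj' hah]
        rintro (⟨_, h'⟩ | ⟨h', _⟩)
        · exact hxh h'
        · exact hu.1 h'
      have b2 : ¬ (SimpleGraph.edge a h).Adj v x := by
        rw [edge_adj' hah]
        rintro (⟨_, h'⟩ | ⟨h', _⟩)
        · exact hxh h'
        · exact hv.1 h'
      unfold fac
      simp only [toggle_adj, b1, b2, iff_false, not_not]
    rw [sum_fac huv (Ne.symm hu.1) (Ne.symm hv.1) (fun G => ∏ x ∈ S, fac u v x G)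
      (inv u (Or.inl rfl)) (inv v (Or.inr rfl)), ih hu.2 hv.2, card_insert_of_notMem hhS]
    ring

lemma prod_fac (u v : Fin n) (S : Finset (Fin n)) (G : SimpleGraph (Fin n)) :
    ∏ h ∈ S, fac u v h G = (1 / 2) ^ (common G S u v).card := by
  unfold fac common
  rw [Finset.prod_ite]
  simp

/-- few graphs have few common neighbours of `u` and `v` in `H` -/
lemma few_bad {u v : Fin n} (huv : u ≠ v) (H : Finset (Fin n)) (K : ℕ) :
    ((univ.filter fun G : SimpleGraph (Fin n) => (common G H u v).card < K).card : ℝ) ≤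
      2 ^ K * (7 / 8) ^ (H.card - 2) * (Fintype.card (SimpleGraph (Fin n)) : ℝ) := by
  set S := (H.erase u).erase v with hS
  have hu : u ∉ S := by simp [hS]
  have hv : v ∉ S := by simp [hS]
  have hcard : H.card - 2 ≤ S.card := by
    have h1 := Finset.pred_card_le_card_erase (s := H) (a := u)
    have h2 : (H.erase u).card - 1 ≤ S.card := Finset.pred_card_le_card_erase
    omega
  have h1 := sum_prod_fac huv S hu hv
  have h2 : ((univ.filter fun G : SimpleGraph (Fin n) => (common G H u v).card < K).card : ℝ) *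
      (1 / 2) ^ K ≤ ∑ G : SimpleGraph (Fin n), ∏ h ∈ S, fac u v h G := by
    calc ((univ.filter fun G : SimpleGraph (Fin n) => (common G H u v).card < K).card : ℝ) *
          (1 / 2) ^ K
        = ∑ G ∈ univ.filter (fun G : SimpleGraph (Fin n) => (common G H u v).card < K),
          (1 / 2 : ℝ) ^ K := by rw [Finset.sum_const, nsmul_eq_mul]
      _ ≤ ∑ G ∈ univ.filter (fun G : SimpleGraph (Fin n) => (common G H u v).card < K),
          ∏ h ∈ S, fac u v h G := by
          refine Finset.sum_le_sum fun G hG => ?_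
          rw [mem_filter] at hG
          rw [prod_fac]
          apply pow_le_pow_of_le_one (by norm_num) (by norm_num)
          have : common G S u v ⊆ common G H u v := by
            unfold common
            apply filter_subset_filter
            exact (erase_subset _ _).trans (erase_subset _ _)
          exact (card_le_card this).trans hG.2.le
      _ ≤ ∑ G : SimpleGraph (Fin n), ∏ h ∈ S, fac u v h G := by
          apply Finset.sum_le_sum_of_subset_of_nonneg (filter_subset _ _)
          intro G _ _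
          rw [prod_fac]
          positivity
  rw [h1] at h2
  have h3 : (7 / 8 : ℝ) ^ S.card ≤ (7 / 8) ^ (H.card - 2) :=
    pow_le_pow_of_le_one (by norm_num) (by norm_num) hcard
  have h4 : (1 / 2 : ℝ) ^ K * 2 ^ K = 1 := by
    rw [← mul_pow]
    norm_num
  have h5 : (0 : ℝ) ≤ 2 ^ K := by positivity
  calc ((univ.filter fun G : SimpleGraph (Fin n) => (common G H u v).card < K).card : ℝ)
      = (((univ.filter fun G : SimpleGraph (Fin n) =>
          (common G H u v).card < K).card : ℝ) * (1 / 2) ^ K) * 2 ^ K := by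
        rw [mul_assoc, h4, mul_one]
    _ ≤ ((7 / 8) ^ S.card * (Fintype.card (SimpleGraph (Fin n)) : ℝ)) * 2 ^ K :=
        mul_le_mul_of_nonneg_right h2 h5
    _ ≤ ((7 / 8) ^ (H.card - 2) * (Fintype.card (SimpleGraph (Fin n)) : ℝ)) * 2 ^ K := by
        gcongr
    _ = _ := by ring

/-- few graphs have a pair of vertices with few common neighbours in `H` -/
lemma few_bad_all (H : Finset (Fin n)) (K : ℕ) :
    ((univ.filter fun G : SimpleGraph (Fin n) =>
      ¬ ∀ u v, u ≠ v → K ≤ (common G H u v).card).card : ℝ) ≤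
      n ^ 2 * (2 ^ K * (7 / 8) ^ (H.card - 2)) * (Fintype.card (SimpleGraph (Fin n)) : ℝ) := by
  have h1 : (univ.filter fun G : SimpleGraph (Fin n) =>
      ¬ ∀ u v, u ≠ v → K ≤ (common G H u v).card) ⊆
      ((univ : Finset (Fin n × Fin n)).filter fun p => p.1 ≠ p.2).biUnion
        (fun p => univ.filter fun G : SimpleGraph (Fin n) => (common G H p.1 p.2).card < K) := by
    intro G hG
    rw [mem_filter] at hG
    have hG2 := hG.2
    push Not at hG2
    obtain ⟨u, v, huv, hlt⟩ := hG2
    exact mem_biUnion.2 ⟨(u, v), by simpa using huv, by simpa using hlt⟩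
  have h2 : ((univ.filter fun G : SimpleGraph (Fin n) =>
      ¬ ∀ u v, u ≠ v → K ≤ (common G H u v).card).card : ℝ) ≤
      ∑ p ∈ (univ : Finset (Fin n × Fin n)).filter (fun p => p.1 ≠ p.2),
        ((univ.filter fun G : SimpleGraph (Fin n) => (common G H p.1 p.2).card < K).card : ℝ) := by
    exact_mod_cast (card_le_card h1).trans card_biUnion_le
  refine h2.trans ?_
  have h3 : ∀ p ∈ (univ : Finset (Fin n × Fin n)).filter (fun p => p.1 ≠ p.2),
      ((univ.filter fun G : SimpleGraph (Fin n) => (common G H p.1 p.2).card < K).card : ℝ) ≤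
        2 ^ K * (7 / 8) ^ (H.card - 2) * (Fintype.card (SimpleGraph (Fin n)) : ℝ) := by
    intro p hp
    rw [mem_filter] at hp
    exact few_bad hp.2 H K
  refine (Finset.sum_le_card_nsmul _ _ _ h3).trans ?_
  rw [nsmul_eq_mul]
  have h4 : (((univ : Finset (Fin n × Fin n)).filter (fun p => p.1 ≠ p.2)).card : ℝ) ≤
      (n : ℝ) ^ 2 := by
    have : ((univ : Finset (Fin n × Fin n)).filter (fun p => p.1 ≠ p.2)).card ≤ n ^ 2 := by
      refine (card_le_card (filter_subset _ _)).trans ?_
      rw [card_univ, Fintype.card_prod, Fintype.card_fin, sq]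
    exact_mod_cast this
  calc (((univ : Finset (Fin n × Fin n)).filter (fun p => p.1 ≠ p.2)).card : ℝ) *
        (2 ^ K * (7 / 8) ^ (H.card - 2) * (Fintype.card (SimpleGraph (Fin n)) : ℝ))
      ≤ (n : ℝ) ^ 2 *
        (2 ^ K * (7 / 8) ^ (H.card - 2) * (Fintype.card (SimpleGraph (Fin n)) : ℝ)) := by
        apply mul_le_mul_of_nonneg_right h4
        positivity
    _ = _ := by ring

end

end Pool.Agent.Helper37.PathSys
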