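import Pool.Agent.Helper37.PathSys.Lower
import Pool.Agent.Helper37.PathSys.Random
import Pool.Agent.Helper37.PathSys.Numeric

/-!
# Few path systems have many unique shortest paths
-/

set_option autoImplicit false

namespace Pool.Agent.Helper37.PathSys

open SimpleGraph Finset Filter Topology

variable {n : ℕ}

lemma connected_of_common {G : SimpleGraph (Fin n)} {H : Finset (Fin n)} (hn : 1 ≤ n)
    (h : ∀ u v, u ≠ v → 1 ≤ (common G H u v).card) : G.Connected := by
  classical
  rw [SimpleGraph.connected_iff]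
  refine ⟨fun u v => ?_, ⟨⟨0, by omega⟩⟩⟩
  by_cases huv : u = v
  · subst huv; exact Reachable.refl _
  · obtain ⟨c, hc⟩ := Finset.card_pos.1 (h u v huv)
    unfold common at hc
    rw [mem_filter] at hc
    exact hc.2.1.reachable.trans hc.2.2.symm.reachable

lemma card_first {h : ℕ} (hh : h ≤ n) :
    ((univ : Finset (Fin n)).filter fun i => i.val < h).card = h := by
  rw [Fin.card_filter_val_lt]
  omega

lemma ncard_unique (G : SimpleGraph (Fin n)) (P : PathSystem G) (w : Sym2 (Fin n) → ℝ) :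
    ∃ U : Finset (Pr n), (∀ p ∈ U, P.UniquelyShortest w p.1.1 p.1.2) ∧
      {p : Fin n × Fin n | p.1 < p.2 ∧ P.UniquelyShortest w p.1 p.2}.ncard = U.card := by
  classical
  refine ⟨univ.filter fun p : Pr n => P.UniquelyShortest w p.1.1 p.1.2, ?_, ?_⟩
  · intro p hp
    exact (mem_filter.1 hp).2
  · have : {p : Fin n × Fin n | p.1 < p.2 ∧ P.UniquelyShortest w p.1 p.2} =
        (((univ.filter fun p : Pr n => P.UniquelyShortest w p.1.1 p.1.2).image
          Subtype.val : Finset (Fin n × Fin n)) : Set (Fin n × Fin n)) := by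
      ext p
      simp only [Set.mem_ofPred_eq, coe_image, Set.mem_image, mem_coe, mem_filter, mem_univ,
        true_and]
      constructor
      · rintro ⟨h1, h2⟩
        exact ⟨⟨p, h1⟩, h2, rfl⟩
      · rintro ⟨q, h1, rfl⟩
        exact ⟨q.2, h1⟩
    rw [this, Set.ncard_coe_finset, card_image_of_injective _ Subtype.val_injective]

lemma unique_le (G : SimpleGraph (Fin n)) {δ : ℝ} (f k : ℕ) (hn : 1 ≤ n)
    (hk : ∀ m : ℕ, δ * (n.choose 2 : ℝ) ≤ m → k ≤ m) :
    (UniqueSystems δ G).ncard ≤ 2 ^ (n.choose 2) * n ^ (n.choose 2 - (f + 1)) +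
      2 ^ (n.choose 2) * (2 ^ (Fintype.card (Sym2 (Fin n))) * (n.choose 2 + 1) ^ f *
        n ^ (n.choose 2 - k)) := by
  classical
  have hsub : UniqueSystems δ G ⊆
      {P : PathSystem G | P.Consistent ∧ f + 1 ≤ (direct P).card} ∪
      {P : PathSystem G | P.Consistent ∧ (direct P).card ≤ f ∧
      ∃ (w : Sym2 (Fin n) → ℝ) (U : Finset (Pr n)), k ≤ U.card ∧
        ∀ p ∈ U, P.UniquelyShortest w p.1.1 p.1.2} := by
    rintro P ⟨hP, w, _, hw⟩
    by_cases h : f + 1 ≤ (direct P).card
    · exact Or.inl ⟨hP, h⟩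
    · refine Or.inr ⟨hP, by omega, w, ?_⟩
      obtain ⟨U, hU1, hU2⟩ := ncard_unique G P w
      rw [hU2] at hw
      exact ⟨U, hk _ hw, hU1⟩
  refine (Set.ncard_le_ncard hsub (Set.toFinite _)).trans ?_
  refine (Set.ncard_union_le _ _).trans ?_
  exact Nat.add_le_add (many_direct (f + 1) hn) (few_direct f k hn)

/-- the property of the theorem -/
def Good (δ : ℝ) (n : ℕ) (G : SimpleGraph (Fin n)) : Prop :=
  G.Connected ∧ ((UniqueSystems δ G).ncard : ℝ) ≤
    (n : ℝ) ^ (-(δ / 8) * (n : ℝ) ^ 2) * ((AllSystems G).ncard : ℝ)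

lemma good_of_common {δ : ℝ} (h0 : 0 < δ) (h1 : δ ≤ 1) : ∀ᶠ n : ℕ in atTop,
    ∀ G : SimpleGraph (Fin n),
      (∀ u v, u ≠ v →
        KK δ n ≤ (common G ((univ : Finset (Fin n)).filter fun i => i.val < hh δ n) u v).card) →
      Good δ n G := by
  have hbig : ∀ᶠ n : ℕ in atTop, 8000 / δ ≤ (n : ℝ) :=
    tendsto_natCast_atTop_atTop.eventually_ge_atTop _
  filter_upwards [numeric h0 h1, hbig, eventually_ge_atTop 1] with n hnum hb hn G hG
  have hK1 : 1 ≤ KK δ n := by
    have hb' : 8000 ≤ δ * n := by rw [div_le_iff₀ h0] at hb; linarith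
    have := KK_ge hb'
    have h2 : (0 : ℝ) < KK δ n := by linarith
    exact_mod_cast h2
  have hhn : hh δ n ≤ n := by
    have h2 := hh_le h0 n
    have h3 : (hh δ n : ℝ) ≤ n := by
      have : (0 : ℝ) ≤ n := Nat.cast_nonneg _
      nlinarith
    exact_mod_cast h3
  refine ⟨connected_of_common hn fun u v huv => hK1.trans (hG u v huv), ?_⟩
  have hlow := lower hK1 hG
  rw [card_first hhn] at hlow
  have hD0 : (0 : ℝ) ≤ δ * (n.choose 2 : ℝ) := by positivity
  have hup := unique_le G (δ := δ) ⌊δ * (n.choose 2 : ℝ) / 3⌋₊ ⌈δ * (n.choose 2 : ℝ)⌉₊ hn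
    (fun m hm => Nat.ceil_le.2 hm)
  have hnum' := hnum ⌊δ * (n.choose 2 : ℝ) / 3⌋₊ ⌈δ * (n.choose 2 : ℝ)⌉₊
    (Nat.floor_le (by positivity)) (Nat.lt_floor_add_one _).le (Nat.le_ceil _)
  calc ((UniqueSystems δ G).ncard : ℝ) ≤ _ := Nat.cast_le.2 hup
    _ ≤ _ := hnum'
    _ ≤ _ := mul_le_mul_of_nonneg_left (Nat.cast_le.2 hlow) (by positivity)

theorem final (δ : ℝ) (h0 : 0 < δ) (h1 : δ ≤ 1) :
    Tendsto (fun n : ℕ => ({G : SimpleGraph (Fin n) | Good δ n G}.ncard : ℝ) /
      (Nat.card (SimpleGraph (Fin n)) : ℝ)) atTop (𝓝 1) := by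
  classical
  have hlim : Tendsto (fun n : ℕ => 1 - (n : ℝ) ^ 2 * (2 ^ (KK δ n) * (7 / 8) ^ (hh δ n - 2)))
      atTop (𝓝 1) := by
    simpa using tendsto_const_nhds.sub (bad_tendsto h0)
  refine tendsto_of_tendsto_of_tendsto_of_le_of_le' hlim tendsto_const_nhds ?_ ?_
  · filter_upwards [good_of_common h0 h1, eventually_ge_atTop 1] with n hgood hn
    have hT : (0 : ℝ) < (Nat.card (SimpleGraph (Fin n)) : ℝ) := by
      have : 0 < Nat.card (SimpleGraph (Fin n)) := Nat.card_pos
      exact_mod_cast this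
    rw [le_div_iff₀ hT]
    have hhn : hh δ n ≤ n := by
      have h2 := hh_le h0 n
      have h3 : (hh δ n : ℝ) ≤ n := by
        have : (0 : ℝ) ≤ n := Nat.cast_nonneg _
        nlinarith
      exact_mod_cast h3
    have hbad := few_bad_all ((univ : Finset (Fin n)).filter fun i => i.val < hh δ n) (KK δ n)
    rw [card_first hhn] at hbad
    set B := univ.filter fun G : SimpleGraph (Fin n) => ¬ ∀ u v, u ≠ v →
      KK δ n ≤ (common G ((univ : Finset (Fin n)).filter fun i => i.val < hh δ n) u v).card with hB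
    set A := univ.filter fun G : SimpleGraph (Fin n) => ∀ u v, u ≠ v →
      KK δ n ≤ (common G ((univ : Finset (Fin n)).filter fun i => i.val < hh δ n) u v).card with hA
    have hAB : A.card + B.card = Fintype.card (SimpleGraph (Fin n)) := by
      rw [hA, hB, Finset.card_filter_add_card_filter_not, Finset.card_univ]
    have hle : A.card ≤ {G : SimpleGraph (Fin n) | Good δ n G}.ncard := by
      rw [← Set.ncard_coe_finset]
      refine Set.ncard_le_ncard ?_ (Set.toFinite _)
      intro G hG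
      have hG' : G ∈ A := hG
      rw [hA, mem_filter] at hG'
      exact hgood G hG'.2
    rw [Nat.card_eq_fintype_card]
    have hAB' : (A.card : ℝ) + B.card = Fintype.card (SimpleGraph (Fin n)) := by
      exact_mod_cast hAB
    have hle' : (A.card : ℝ) ≤ {G : SimpleGraph (Fin n) | Good δ n G}.ncard := by
      exact_mod_cast hle
    linarith
  · refine Eventually.of_forall fun n => ?_
    have hT : (0 : ℝ) < (Nat.card (SimpleGraph (Fin n)) : ℝ) := by
      have : 0 < Nat.card (SimpleGraph (Fin n)) := Nat.card_pos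
      exact_mod_cast this
    rw [div_le_one hT]
    have := Set.ncard_le_card {G : SimpleGraph (Fin n) | Good δ n G}
    exact_mod_cast this

end Pool.Agent.Helper37.PathSys
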