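import Pool.Agent.Helper37.PathSys.Defs

/-!
# Encoding consistent path systems by next hops
-/

set_option autoImplicit false

namespace Pool.Agent.Helper37.PathSys

open SimpleGraph

namespace PathSystem

section general

variable {V : Type*} {G : SimpleGraph V}

/-- the second vertex of the path from `u` to `v` -/
noncomputable def nxt (P : PathSystem G) (u v : V) : V := (P.path u v : G.Walk u v).snd

lemma path_self (P : PathSystem G) (u : V) : P.path u u = Path.nil := Path.loop_eq _

lemma exists_cons {P : PathSystem G} (hP : P.Consistent) {u v : V} (huv : u ≠ v) :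
    ∃ (x : V) (h : G.Adj u x), x = P.nxt u v ∧
      (P.path u v : G.Walk u v) = Walk.cons h (P.path x v : G.Walk x v) := by
  rcases hp : (P.path u v : G.Walk u v) with _ | ⟨h, q⟩
  · exact absurd rfl huv
  · rename_i x
    have h1 : q = P.path x v := by
      apply hP u v x v (Walk.cons h Walk.nil) q Walk.nil
      rw [hp]
      simp
    refine ⟨x, h, ?_, by rw [h1]⟩
    unfold nxt
    rw [hp]
    simp

lemma eq_of_nxt [LinearOrder V] {P P' : PathSystem G} (hP : P.Consistent) (hP' : P'.Consistent)
    (h : ∀ u v, u < v → P.path u v = P'.path u v ∨ P.nxt u v = P'.nxt u v) : P = P' := by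
  have key : ∀ (k : ℕ) (u v : V), (P.path u v : G.Walk u v).length = k →
      P.path u v = P'.path u v := by
    intro k
    induction k using Nat.strong_induction_on with
    | _ k ih =>
      have lt_case : ∀ u v : V, u < v → (P.path u v : G.Walk u v).length = k →
          P.path u v = P'.path u v := by
        intro u v huv hk
        rcases h u v huv with h1 | h1
        · exact h1
        · obtain ⟨x, hx, hxn, hpx⟩ := exists_cons hP huv.ne
          obtain ⟨x', hx', hxn', hpx'⟩ := exists_cons hP' huv.ne
          obtain rfl : x = x' := by rw [hxn, hxn', h1]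
          have hlen : (P.path x v : G.Walk x v).length < k := by
            rw [hpx, Walk.length_cons] at hk
            omega
          have h2 := ih _ hlen x v rfl
          apply Subtype.ext
          rw [hpx, hpx', h2]
      intro u v hk
      rcases lt_trichotomy u v with huv | rfl | huv
      · exact lt_case u v huv hk
      · rw [path_self, path_self]
      · have hk' : (P.path v u : G.Walk v u).length = k := by
          rw [P.symm u v, Walk.length_reverse, hk]
        have h2 := lt_case v u huv hk'
        apply Subtype.ext
        rw [P.symm v u, P'.symm v u, h2]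
  apply PathSystem.ext
  funext u v
  exact key _ u v rfl

lemma exists_split {u v : V} (p : G.Walk u v) (e : Sym2 V) (he : e ∈ p.edges) :
    ∃ (a b : V) (h : G.Adj a b) (p₁ : G.Walk u a) (p₂ : G.Walk b v), e = s(a, b) ∧
      p = p₁.append ((Walk.cons h Walk.nil).append p₂) := by
  induction p with
  | nil => simp at he
  | cons h p ih =>
    rw [Walk.edges_cons, List.mem_cons] at he
    rcases he with he | he
    · exact ⟨_, _, h, Walk.nil, p, he, by simp⟩
    · obtain ⟨a, b, hab, p₁, p₂, he', hp⟩ := ih he
      refine ⟨a, b, hab, Walk.cons h p₁, p₂, he', ?_⟩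
      rw [hp]
      simp

lemma nxt_of_mem_edges {P : PathSystem G} (hP : P.Consistent) {u v : V} {e : Sym2 V}
    (he : e ∈ (P.path u v : G.Walk u v).edges) :
    ∃ a b : V, e = s(a, b) ∧ a ≠ b ∧ P.nxt a b = b ∧ P.nxt b a = a := by
  obtain ⟨a, b, hab, p₁, p₂, he', hp⟩ := exists_split _ e he
  have h1 := hP u v a b p₁ _ p₂ hp
  have h2 : (P.path b a : G.Walk b a) = Walk.cons hab.symm Walk.nil := by
    rw [P.symm a b, ← h1]
    rfl
  refine ⟨a, b, he', hab.ne, ?_, ?_⟩
  · unfold nxt
    rw [← h1]
    simp
  · unfold nxt
    rw [h2]
    simp

end general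

end PathSystem

end Pool.Agent.Helper37.PathSys
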