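import Mathlib

/-!
# Consistent path systems and the weights inducing them
-/

set_option autoImplicit false

namespace Pool.Agent.Helper37.PathSys

variable {V : Type*}

/-- A path system in `G`: for every pair of vertices `u, v` exactly one path joining them
(the path from `v` to `u` is the path from `u` to `v` read backwards). -/
@[ext] structure PathSystem (G : SimpleGraph V) where
  path : ∀ u v : V, G.Path u v
  symm : ∀ u v, (path v u : G.Walk v u) = (path u v : G.Walk u v).reverse

namespace PathSystem

variable {G : SimpleGraph V}

/-- Consistency: if the path joining `u` and `v` passes through `x` and then `y`, then its part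
between `x` and `y` is the path of the system joining `x` and `y`. -/
def Consistent (P : PathSystem G) : Prop :=
  ∀ (u v x y : V) (p : G.Walk u x) (q : G.Walk x y) (r : G.Walk y v),
    (P.path u v : G.Walk u v) = p.append (q.append r) → q = P.path x y

end PathSystem

/-- The total weight `w(H)` of the edges of a walk (for a path every edge occurs once). -/
def weight {G : SimpleGraph V} (w : Sym2 V → ℝ) {u v : V} (p : G.Walk u v) : ℝ :=
  (p.edges.map w).sum

namespace PathSystem

variable {G : SimpleGraph V}

/-- The weight function `w` (positive on the edges) induces the path system `P`. -/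
def Induces (w : Sym2 V → ℝ) (P : PathSystem G) : Prop :=
  (∀ e ∈ G.edgeSet, 0 < w e) ∧
    ∀ (u v : V) (q : G.Path u v), weight w (P.path u v : G.Walk u v) ≤ weight w (q : G.Walk u v)

/-- `P.path u v` is the only `w`-shortest path joining `u` and `v`. -/
def UniquelyShortest (w : Sym2 V → ℝ) (P : PathSystem G) (u v : V) : Prop :=
  ∀ q : G.Path u v, q ≠ P.path u v →
    weight w (P.path u v : G.Walk u v) < weight w (q : G.Walk u v)

end PathSystem

/-- The set `Π_G` of consistent path systems in `G`. -/
def AllSystems (G : SimpleGraph V) : Set (PathSystem G) := {P | P.Consistent}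

/-- The consistent path systems in `G` (a graph on `{0, …, n-1}`) that are induced by some weight
function for which at least a proportion `δ` of the pairs of vertices is joined by a unique
shortest path.  For `δ = 1` these are the strictly metrizable systems. -/
def UniqueSystems {n : ℕ} (δ : ℝ) (G : SimpleGraph (Fin n)) : Set (PathSystem G) :=
  {P | P.Consistent ∧ ∃ w : Sym2 (Fin n) → ℝ, P.Induces w ∧
    δ * (n.choose 2 : ℝ) ≤
      ({p : Fin n × Fin n | p.1 < p.2 ∧ P.UniquelyShortest w p.1 p.2}.ncard : ℝ)}

end Pool.Agent.Helper37.PathSys
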