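import Pool.Agent.Helper37.PathSys.Upper

/-!
# A lower bound for the number of consistent path systems
-/

set_option autoImplicit false

namespace Pool.Agent.Helper37.PathSys

open SimpleGraph Finset

section

variable {V : Type*} {G : SimpleGraph V}

lemma eq_nil_of_length {u : V} (p : G.Walk u u) (h : p.length = 0) : p = Walk.nil := by
  cases p with
  | nil => rfl
  | cons _ _ => simp at h

lemma eq_edge_of_length {a b : V} (q : G.Walk a b) (h : q.length = 1) :
    ∃ hab : G.Adj a b, q = Walk.cons hab Walk.nil := by
  cases q with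
  | nil => simp at h
  | cons hy q' =>
    have hq' : q'.length = 0 := by simpa using h
    obtain rfl := Walk.eq_of_length_eq_zero hq'
    exact ⟨hy, by rw [eq_nil_of_length _ hq']⟩

lemma nil_decomp {u x y : V} (p : G.Walk u x) (q : G.Walk x y) (r : G.Walk y u)
    (h : (Walk.nil : G.Walk u u) = p.append (q.append r)) :
    q.length = 0 := by
  have := congrArg Walk.length h
  simp only [Walk.length_nil, Walk.length_append] at this
  omega

end

section

variable {n : ℕ} (G : SimpleGraph (Fin n)) (H : Finset (Fin n))

/-- pairs joined by a direct edge in the constructed systems -/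
def Dir (u v : Fin n) : Prop := G.Adj u v ∧ (u ∈ H ∨ v ∈ H)

open Classical in
/-- common neighbours in `H` -/
noncomputable def common (u v : Fin n) : Finset (Fin n) := H.filter fun h => G.Adj u h ∧ G.Adj v h

/-- a symmetric choice of middle vertices -/
structure Mid where
  c : Fin n → Fin n → Fin n
  symm : ∀ u v, c u v = c v u
  mem : ∀ u v, u ≠ v → ¬ Dir G H u v → c u v ∈ H ∧ G.Adj u (c u v) ∧ G.Adj v (c u v)

variable {G H}

open Classical in
/-- the walks of the constructed system -/
noncomputable def Mid.walk (m : Mid G H) (u v : Fin n) : G.Walk u v :=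
  if h : u = v then Walk.nil.copy rfl h
  else if hd : Dir G H u v then Walk.cons hd.1 Walk.nil
  else Walk.cons (m.mem u v h hd).2.1 (Walk.cons (m.mem u v h hd).2.2.symm Walk.nil)

lemma Mid.walk_self (m : Mid G H) (u : Fin n) : m.walk u u = Walk.nil := by
  simp [Mid.walk]

lemma Mid.walk_dir (m : Mid G H) {u v : Fin n} (hd : Dir G H u v) :
    m.walk u v = Walk.cons hd.1 Walk.nil := by
  have h : u ≠ v := hd.1.ne
  simp [Mid.walk, h, hd]

lemma Mid.walk_mid (m : Mid G H) {u v : Fin n} (h : u ≠ v) (hd : ¬ Dir G H u v) :
    m.walk u v = Walk.cons (m.mem u v h hd).2.1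
      (Walk.cons (m.mem u v h hd).2.2.symm Walk.nil) := by
  simp [Mid.walk, h, hd]

lemma Dir.symm' {u v : Fin n} (h : Dir G H u v) : Dir G H v u := ⟨h.1.symm, h.2.symm⟩

lemma Mid.walk_symm (m : Mid G H) (u v : Fin n) : m.walk v u = (m.walk u v).reverse := by
  by_cases h : u = v
  · subst h
    rw [m.walk_self]
    rfl
  · by_cases hd : Dir G H u v
    · rw [m.walk_dir hd, m.walk_dir hd.symm']
      rfl
    · have hd' : ¬ Dir G H v u := fun h' => hd h'.symm'
      apply Walk.ext_support
      rw [m.walk_mid h hd, m.walk_mid (Ne.symm h) hd', Walk.support_reverse]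
      simp [m.symm v u]

lemma Mid.walk_isPath (m : Mid G H) (u v : Fin n) : (m.walk u v).IsPath := by
  by_cases h : u = v
  · subst h
    rw [m.walk_self]
    exact Walk.IsPath.nil
  · by_cases hd : Dir G H u v
    · rw [m.walk_dir hd]
      simp [h]
    · rw [m.walk_mid h hd]
      have h1 := (m.mem u v h hd).2.1.ne
      have h2 := (m.mem u v h hd).2.2.ne
      simp [h, h1, h2.symm]

/-- the constructed path system -/
noncomputable def Mid.system (m : Mid G H) : PathSystem G where
  path u v := ⟨m.walk u v, m.walk_isPath u v⟩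
  symm u v := m.walk_symm u v

lemma Mid.walk_of_length_zero (m : Mid G H) {x y : Fin n} (q : G.Walk x y) (h : q.length = 0) :
    q = m.walk x y := by
  obtain rfl := Walk.eq_of_length_eq_zero h
  rw [m.walk_self]
  exact eq_nil_of_length _ h

lemma Mid.consistent (m : Mid G H) : m.system.Consistent := by
  intro u v x y p q r hpqr
  change m.walk u v = p.append (q.append r) at hpqr
  change q = m.walk x y
  by_cases hq0 : q.length = 0
  · exact m.walk_of_length_zero q hq0
  by_cases h : u = v
  · subst h
    rw [m.walk_self] at hpqr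
    exact absurd (nil_decomp p q r hpqr) hq0
  by_cases hd : Dir G H u v
  · have hl := congrArg Walk.length hpqr
    rw [m.walk_dir hd] at hl
    simp only [Walk.length_cons, Walk.length_nil, Walk.length_append] at hl
    have hp : p.length = 0 := by omega
    have hr : r.length = 0 := by omega
    obtain rfl := Walk.eq_of_length_eq_zero hp
    obtain rfl := Walk.eq_of_length_eq_zero hr
    rw [eq_nil_of_length _ hp, eq_nil_of_length _ hr] at hpqr
    rw [hpqr]
    simp
  · have hmem := m.mem u v h hd
    have hl := congrArg Walk.length hpqr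
    rw [m.walk_mid h hd] at hl
    simp only [Walk.length_cons, Walk.length_nil, Walk.length_append] at hl
    by_cases hp : p.length = 0
    · obtain rfl := Walk.eq_of_length_eq_zero hp
      rw [eq_nil_of_length _ hp, Walk.nil_append] at hpqr
      by_cases hr : r.length = 0
      · obtain rfl := Walk.eq_of_length_eq_zero hr
        rw [eq_nil_of_length _ hr, Walk.append_nil] at hpqr
        exact hpqr.symm
      · -- `q` is the first edge
        have hq1 : q.length = 1 := by omega
        cases q with
        | nil => simp at hq1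
        | cons hx q' =>
          have hq' : q'.length = 0 := by simpa using hq1
          obtain rfl := Walk.eq_of_length_eq_zero hq'
          have e1 : q' = Walk.nil := eq_nil_of_length _ hq'
          subst e1
          have hs := congrArg Walk.snd hpqr
          rw [m.walk_mid h hd] at hs
          simp only [Walk.cons_append, Walk.nil_append, Walk.snd_cons] at hs
          subst hs
          have hdir : Dir G H u (m.c u v) := ⟨hmem.2.1, Or.inr hmem.1⟩
          rw [m.walk_dir hdir]
    · -- `q` is the second edge
      have hp1 : p.length = 1 := by omega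
      have hq1 : q.length = 1 := by omega
      have hr : r.length = 0 := by omega
      obtain rfl := Walk.eq_of_length_eq_zero hr
      rw [eq_nil_of_length _ hr, Walk.append_nil] at hpqr
      cases p with
      | nil => simp at hp1
      | cons hx p' =>
        have hp' : p'.length = 0 := by simpa using hp1
        obtain rfl := Walk.eq_of_length_eq_zero hp'
        have e1 : p' = Walk.nil := eq_nil_of_length _ hp'
        subst e1
        have hs := congrArg Walk.snd hpqr
        rw [m.walk_mid h hd] at hs
        simp only [Walk.cons_append, Walk.nil_append, Walk.snd_cons] at hs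
        subst hs
        have hdir : Dir G H (m.c u y) y := ⟨hmem.2.2.symm, Or.inl hmem.1⟩
        rw [m.walk_dir hdir]
        obtain ⟨hab, rfl⟩ := eq_edge_of_length q hq1
        rfl

open Classical in
/-- the options for the pair `p` -/
noncomputable def opt (G : SimpleGraph (Fin n)) (H : Finset (Fin n)) (p : Pr n) :
    Finset (Fin n) :=
  if Dir G H p.1.1 p.1.2 then {p.1.2} else common G H p.1.1 p.1.2

/-- middle vertices from a choice function -/
noncomputable def midOf (g : Pr n → Fin n) (hg : ∀ p, g p ∈ opt G H p) : Mid G H where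
  c u v := if h : u < v then g ⟨(u, v), h⟩ else if h' : v < u then g ⟨(v, u), h'⟩ else u
  symm u v := by
    rcases lt_trichotomy u v with h | rfl | h
    · simp [h, not_lt.2 h.le]
    · simp
    · simp [h, not_lt.2 h.le]
  mem u v huv hd := by
    rcases lt_trichotomy u v with h | rfl | h
    · have h1 := hg ⟨(u, v), h⟩
      simp only [opt, hd, if_false, common, mem_filter] at h1
      simp only [h, dif_pos]
      exact ⟨h1.1, h1.2.1, h1.2.2⟩
    · exact absurd rfl huv
    · have hd' : ¬ Dir G H v u := fun h' => hd h'.symm'
      have h1 := hg ⟨(v, u), h⟩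
      simp only [opt, hd', if_false, common, mem_filter] at h1
      simp only [h, not_lt.2 h.le, dif_pos, dif_neg, not_false_eq_true]
      exact ⟨h1.1, h1.2.2, h1.2.1⟩

lemma nxt_midOf (g : Pr n → Fin n) (hg : ∀ p, g p ∈ opt G H p) (p : Pr n) :
    (midOf g hg).system.nxt p.1.1 p.1.2 = g p := by
  change ((midOf g hg).walk p.1.1 p.1.2).snd = g p
  by_cases hd : Dir G H p.1.1 p.1.2
  · have h1 := hg p
    simp only [opt, hd, if_true, mem_singleton] at h1
    rw [Mid.walk_dir _ hd, h1]
    simp
  · rw [Mid.walk_mid _ p.2.ne hd]
    simp only [Walk.snd_cons]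
    have : (midOf g hg).c p.1.1 p.1.2 = g p := by
      simp only [midOf, p.2, dif_pos]
    exact this

lemma card_dir_le : (univ.filter fun p : Pr n => p.1.1 ∈ H ∨ p.1.2 ∈ H).card ≤
    2 * H.card * n := by
  classical
  have h1 : (univ.filter fun p : Pr n => p.1.1 ∈ H ∨ p.1.2 ∈ H) =
      (univ.filter fun p : Pr n => p.1.1 ∈ H) ∪ (univ.filter fun p : Pr n => p.1.2 ∈ H) := by
    rw [filter_or]
  rw [h1]
  refine (card_union_le _ _).trans ?_
  have h2 : (univ.filter fun p : Pr n => p.1.1 ∈ H).card ≤ H.card * n := by
    have : (univ.filter fun p : Pr n => p.1.1 ∈ H).card ≤ (H ×ˢ (univ : Finset (Fin n))).card := by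
      refine card_le_card_of_injOn (fun p => (p.1.1, p.1.2)) ?_ ?_
      · intro p hp
        rw [mem_coe, mem_filter] at hp
        simpa using hp.2
      · rintro ⟨⟨a, b⟩, _⟩ _ ⟨⟨c, d⟩, _⟩ _ h
        simpa using h
    simpa using this
  have h3 : (univ.filter fun p : Pr n => p.1.2 ∈ H).card ≤ H.card * n := by
    have : (univ.filter fun p : Pr n => p.1.2 ∈ H).card ≤ (H ×ˢ (univ : Finset (Fin n))).card := by
      refine card_le_card_of_injOn (fun p => (p.1.2, p.1.1)) ?_ ?_
      · intro p hp
        rw [mem_coe, mem_filter] at hp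
        simpa using hp.2
      · rintro ⟨⟨a, b⟩, _⟩ _ ⟨⟨c, d⟩, _⟩ _ h
        simp only [Prod.mk.injEq] at h
        simp [h.1, h.2]
    simpa using this
  linarith

lemma lower {K : ℕ} (hK : 1 ≤ K)
    (hcod : ∀ u v, u ≠ v → K ≤ (common G H u v).card) :
    K ^ (n.choose 2 - 2 * H.card * n) ≤ (AllSystems G).ncard := by
  classical
  have h1 : (Fintype.piFinset (opt G H)).card ≤ (AllSystems G).ncard := by
    rw [← Set.ncard_coe_finset]
    refine Set.ncard_le_ncard_of_injOn
      (fun g => if hg : ∀ p, g p ∈ opt G H p then (midOf g hg).system else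
        (midOf (G := G) (H := H) (fun p => Classical.choose
          (show (opt G H p).Nonempty by
            unfold opt
            split_ifs
            · exact singleton_nonempty _
            · exact card_pos.1 (lt_of_lt_of_le hK (hcod _ _ p.2.ne))))
          (fun p => Classical.choose_spec _)).system) ?_ ?_ (Set.toFinite _)
    · intro g hg
      have hg' : ∀ p, g p ∈ opt G H p := Fintype.mem_piFinset.1 (mem_coe.1 hg)
      simp only [hg', implies_true, dif_pos]
      exact Mid.consistent _
    · intro g hg g' hg' heq
      have h1 : ∀ p, g p ∈ opt G H p := Fintype.mem_piFinset.1 (mem_coe.1 hg)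
      have h2 : ∀ p, g' p ∈ opt G H p := Fintype.mem_piFinset.1 (mem_coe.1 hg')
      simp only [h1, h2, implies_true, dif_pos] at heq
      funext p
      rw [← nxt_midOf g h1 p, ← nxt_midOf g' h2 p, heq]
  refine le_trans ?_ h1
  rw [Fintype.card_piFinset]
  have h2 : ∀ p : Pr n, (if p ∈ (univ.filter fun p : Pr n => p.1.1 ∈ H ∨ p.1.2 ∈ H) then 1 else K) ≤
      (opt G H p).card := by
    intro p
    unfold opt
    by_cases hd : Dir G H p.1.1 p.1.2
    · have : p ∈ (univ.filter fun p : Pr n => p.1.1 ∈ H ∨ p.1.2 ∈ H) := by simpa using hd.2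
      rw [if_pos this, if_pos hd]
      simp
    · rw [if_neg hd]
      split_ifs
      · exact hK.trans (hcod _ _ p.2.ne)
      · exact hcod _ _ p.2.ne
  refine le_trans ?_ (Finset.prod_le_prod' fun p _ => h2 p)
  rw [Finset.prod_ite]
  simp only [prod_const, one_pow, one_mul]
  refine Nat.pow_le_pow_right hK ?_
  have h3 : (univ.filter fun p : Pr n =>
      p ∉ (univ.filter fun p : Pr n => p.1.1 ∈ H ∨ p.1.2 ∈ H)) =
      (univ.filter fun p : Pr n => p.1.1 ∈ H ∨ p.1.2 ∈ H)ᶜ := by
    ext p
    simp
  rw [h3, card_compl, card_Pr]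
  have := card_dir_le (H := H)
  omega

end

end Pool.Agent.Helper37.PathSys
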